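import Pool.Agent.W8.KU.Stm
import Pool.Agent.W403.KU.Fr
import Pool.Agent.W238.KU.Clu
import Pool.Agent.W2.KU.Int
import Pool.Agent.W804.KU.LY
import Pool.Agent.W750.KU.PlS
import Pool.Agent.W490.KU.Pla
import Pool.Agent.W899.KU.Rad
import Pool.Agent.W654.KU.Der
import Pool.Agent.W270.KU.Hsc
import Pool.Agent.W135.KU.Hfin
import Pool.Agent.W726.KU.Hpos
import Pool.Agent.W881.KU.Bij
import Pool.Agent.W914.KU.Smo
import Pool.Agent.W320.KU.Lip
import Pool.Agent.W740.KU.Val
import Pool.Agent.W597.KU.Img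
import Pool.Agent.W252.KU.Vol
import Pool.Agent.W287.KU.Are

/-!
MP_5bdae7_gt (Kusner): a cluster in space with spherical interfaces that meet according to
Plateau's laws, in equilibrium, which is not stable.
-/

open scoped Topology ContDiff
open MeasureTheory

namespace Pool.Agent.Results.MP_5bdae7_gt.UnstableSphericalCluster

open Pool.Agent.W8.KU

/-- There is a cluster of two cells in `ℝ³` with spherical interfaces obeying Plateau's laws and
the Laplace-Young law, and a smooth deformation of space keeping the volumes of its cells, along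
which the first derivative of the area of the interfaces is zero and the second one negative. -/
theorem result :
    ∃ Ω : Fin 2 → Set E3, IsCluster Ω ∧ Spherical Ω ∧ Plateau Ω ∧ LaplaceYoung Ω ∧
      ∃ Φ : ℝ → E3 → E3, IsDeformation Ω Φ ∧ ContDiffAt ℝ ∞ (area Ω Φ) 0 ∧
        deriv (area Ω Φ) 0 = 0 ∧ deriv (deriv (area Ω Φ)) 0 < 0 :=
  goal_of_props Pool.Agent.W403.KU.Fr_proof Pool.Agent.W238.KU.Clu_proof
    (Pool.Agent.W2.KU.Int_proof Pool.Agent.W403.KU.Fr_proof) Pool.Agent.W804.KU.LY_proof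
    Pool.Agent.W750.KU.PlS_proof Pool.Agent.W490.KU.Pla_proof Pool.Agent.W899.KU.Rad_proof
    Pool.Agent.W654.KU.Der_proof Pool.Agent.W270.KU.Hsc_proof Pool.Agent.W135.KU.Hfin_proof
    Pool.Agent.W726.KU.Hpos_proof Pool.Agent.W881.KU.Bij_proof Pool.Agent.W914.KU.Smo_proof
    Pool.Agent.W320.KU.Lip_proof Pool.Agent.W740.KU.Val_proof Pool.Agent.W597.KU.Img_proof
    Pool.Agent.W252.KU.Vol_proof Pool.Agent.W287.KU.Are_proof

end Pool.Agent.Results.MP_5bdae7_gt.UnstableSphericalCluster
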